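import Pool.Agent.Helper77.PPB.Goals
import Pool.Agent.Helper30.RL.SQR

/-!
# Project PPB: the stability (`B_STB`)
-/

set_option autoImplicit false

namespace Pool.Agent.Helper96.PPB

open NumberField Module Pool.Agent.Helper51.RP Pool.Agent.Helper77.RL

theorem b_stb : Pool.Agent.Helper77.PPB.B_STB := by
  intro p hp n K M M₁ L M' M₂ M₂' _ _ _ _ _ _ _ _ _ _ _ _ _ _ _ _ _ _ _ _ _ _ _ _ _ _ _ _ _ _
    _ _ _ _ _ _ hS hS₁ ε α hε hα g
  have := hS.galL
  have := hS.gal
  have hfd : FiniteDimensional K M₂' := inferInstance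
  let gK : M' ≃ₐ[K] M' := g.restrictScalars K
  let g₀ : L ≃ₐ[K] L := gK.restrictNormal L
  obtain ⟨-, -, -, -, hf⟩ := Pool.Agent.Helper30.RL.l_sqr p n K M₁ L M₂' hS₁
  obtain ⟨f, hf1, hf2⟩ := hf 1 g₀
  let f₁ : M' ≃ₐ[K] M' := f.restrictNormal M'
  have hf₁ : ∀ x : M', algebraMap M' M₂' (f₁ x) = f (algebraMap M' M₂' x) := fun x =>
    AlgEquiv.restrictNormal_commutes f M' x
  have hg₀ : ∀ y : L, algebraMap L M' (g₀ y) = g (algebraMap L M' y) := fun y =>
    AlgEquiv.restrictNormal_commutes gK L y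
  have hM : ∀ x : M, f₁ (algebraMap M M' x) = algebraMap M M' x := by
    intro x
    apply (algebraMap M' M₂').injective
    rw [hf₁, ← IsScalarTower.algebraMap_apply M M' M₂', IsScalarTower.algebraMap_apply M M₁ M₂',
      hf1]
    rfl
  have hL : ∀ y : L, f₁ (algebraMap L M' y) = g (algebraMap L M' y) := by
    intro y
    apply (algebraMap M' M₂').injective
    rw [hf₁, ← IsScalarTower.algebraMap_apply L M' M₂', hf2, ← hg₀,
      ← IsScalarTower.algebraMap_apply L M' M₂']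
  have h1 : gK⁻¹ * f₁ = 1 := by
    refine hS.gen _ (fun x => ?_) fun y => ?_
    · rw [AlgEquiv.mul_apply, hM]
      show gK.symm (algebraMap M M' x) = _
      rw [AlgEquiv.symm_apply_eq]
      exact (g.commutes x).symm
    · rw [AlgEquiv.mul_apply, hL]
      show gK.symm (gK (algebraMap L M' y)) = _
      exact gK.symm_apply_apply _
  have h2 : f₁ = gK := (inv_mul_eq_one.1 h1).symm
  let τ : M₂ ≃ₐ[K] M₂ := f.restrictNormal M₂
  have hτ : ∀ x : M₂, algebraMap M₂ M₂' (τ x) = f (algebraMap M₂ M₂' x) := fun x =>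
    AlgEquiv.restrictNormal_commutes f M₂ x
  obtain ⟨i, c, hi, hc⟩ := hα τ
  have hτε : τ (algebraMap M₁ M₂ ε) = algebraMap M₁ M₂ ε := by
    apply (algebraMap M₂ M₂').injective
    rw [hτ, ← IsScalarTower.algebraMap_apply M₁ M₂ M₂', hf1]
    rfl
  have hε' : IsPrimitiveRoot (algebraMap M₁ M₂ ε) p :=
    hε.map_of_injective (algebraMap M₁ M₂).injective
  rw [hτε] at hi
  obtain ⟨j, rfl⟩ : ∃ j, i = 1 + p * j := by
    rcases Nat.eq_zero_or_pos i with h0 | h0
    · exfalso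
      rw [h0, pow_zero] at hi
      exact hε'.ne_one hp.out.one_lt hi
    · have h3 : (algebraMap M₁ M₂ ε) ^ (i - 1) = 1 := by
        have h4 : (algebraMap M₁ M₂ ε) * (algebraMap M₁ M₂ ε) ^ (i - 1) = algebraMap M₁ M₂ ε := by
          rw [← pow_succ', Nat.sub_add_cancel h0]
          exact hi.symm
        exact mul_left_cancel₀ (hε'.ne_zero hp.out.ne_zero) (by rw [h4, mul_one])
      obtain ⟨j, hj⟩ := hε'.dvd_of_pow_eq_one _ h3
      exact ⟨j, by omega⟩
  refine ⟨f.toRingEquiv, algebraMap M₂ M₂' (α ^ j * c), fun x => ?_, ?_⟩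
  · show f (algebraMap M' M₂' x) = _
    rw [← hf₁, h2]
    rfl
  · show f (algebraMap M₂ M₂' α) = _
    rw [← hτ, hc, ← map_pow, ← map_mul]
    apply congrArg
    rw [mul_pow, ← pow_mul, mul_comm j p, ← mul_assoc, ← pow_succ', add_comm 1]

end Pool.Agent.Helper96.PPB
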