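import Pool.Agent.Helper77.PPB.Goals2
import Pool.Agent.Helper38.FD.Twist
import Pool.Agent.Helper74.PP.DCNV

/-!
# Project PPB: Kummer theory over `M₂` (`B_KU1`)
-/

set_option autoImplicit false

namespace Pool.Agent.Helper96.PPB

open NumberField Module Pool.Agent.Helper38.FD

/-- The Lagrange resolvent. -/
theorem resolvent {p : ℕ} (hp : p.Prime) {K Ω : Type} [Field K] [Field Ω] [Algebra K Ω]
    (N : IntermediateField K Ω) (σ : Ω ≃ₐ[K] Ω)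
    (htriv : ∀ m : ℕ, (∀ y ∈ N, (σ ^ m) y = y) ↔ p ∣ m) (hst : ∀ y ∈ N, σ y ∈ N) (ζ : Ω)
    (hζN : ζ ∈ N) (hζ : ζ ^ p = 1) (hσζ : σ ζ = ζ) :
    ∃ s ∈ N, s ≠ 0 ∧ σ s = ζ * s := by
  have hζ0 : ζ ≠ 0 := by
    rintro rfl
    rw [zero_pow hp.ne_zero] at hζ
    exact zero_ne_one hζ
  let χ : Fin p → (N →* Ω) := fun i =>
    ((((σ ^ (i : ℕ) : Ω ≃ₐ[K] Ω) : Ω →ₐ[K] Ω) : Ω →+* Ω) : Ω →* Ω).comp
      ((N.val : N →+* Ω) : N →* Ω)
  have haux : ∀ i j : ℕ, i ≤ j → (∀ y ∈ N, (σ ^ i) y = (σ ^ j) y) → p ∣ j - i := by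
    intro i j hij h
    rw [← htriv]
    intro y hy
    have h1 := h y hy
    have h2 : (σ ^ j) y = (σ ^ i) ((σ ^ (j - i)) y) := by
      rw [← AlgEquiv.mul_apply, ← pow_add, Nat.add_sub_cancel' hij]
    rw [h2] at h1
    exact ((σ ^ i).injective h1).symm
  have hinj : Function.Injective χ := by
    intro i j hij
    have h1 : ∀ y ∈ N, (σ ^ (i : ℕ)) y = (σ ^ (j : ℕ)) y := by
      intro y hy
      have := congrArg (fun f : N →* Ω => f ⟨y, hy⟩) hij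
      exact this
    apply Fin.ext
    rcases le_total (i : ℕ) j with hle | hle
    · have h2 := haux _ _ hle h1
      have h3 : (j : ℕ) - i < p := lt_of_le_of_lt (Nat.sub_le _ _) j.2
      have h4 := Nat.eq_zero_of_dvd_of_lt h2 h3
      omega
    · have h2 := haux _ _ hle (fun y hy => (h1 y hy).symm)
      have h3 : (i : ℕ) - j < p := lt_of_le_of_lt (Nat.sub_le _ _) i.2
      have h4 := Nat.eq_zero_of_dvd_of_lt h2 h3
      omega
  have hli : LinearIndependent Ω (fun i : Fin p => (χ i : N → Ω)) :=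
    (linearIndependent_monoidHom N Ω).comp χ hinj
  rw [Fintype.linearIndependent_iff] at hli
  have hex : ∃ θ : N, ∑ i : Fin p, (ζ⁻¹) ^ (i : ℕ) * (σ ^ (i : ℕ)) (θ : Ω) ≠ 0 := by
    by_contra hcon
    push Not at hcon
    have h1 := hli (fun i => (ζ⁻¹) ^ (i : ℕ)) (by
      funext θ
      rw [Finset.sum_apply]
      exact hcon θ) ⟨0, hp.pos⟩
    rw [pow_zero] at h1
    exact one_ne_zero h1
  obtain ⟨θ, hθ⟩ := hex
  let F : ℕ → Ω := fun i => (ζ⁻¹) ^ i * (σ ^ i) (θ : Ω)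
  have hFp : F p = F 0 := by
    have h1 := (htriv p).mpr dvd_rfl θ θ.2
    change (ζ⁻¹) ^ p * (σ ^ p) (θ : Ω) = (ζ⁻¹) ^ 0 * (σ ^ 0) (θ : Ω)
    rw [h1, inv_pow, hζ, inv_one, pow_zero, pow_zero]
    rfl
  have hs : ∑ i : Fin p, (ζ⁻¹) ^ (i : ℕ) * (σ ^ (i : ℕ)) (θ : Ω) =
      ∑ i ∈ Finset.range p, F i := by
    rw [Finset.sum_range]
  rw [hs] at hθ
  have hshift : ∑ i ∈ Finset.range p, F (i + 1) = ∑ i ∈ Finset.range p, F i := by
    have h1 := Finset.sum_range_succ F p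
    have h2 := Finset.sum_range_succ' F p
    rw [h1, hFp] at h2
    exact (add_right_cancel h2).symm
  have hσs : σ (∑ i ∈ Finset.range p, F i) = ζ * ∑ i ∈ Finset.range p, F i := by
    rw [map_sum]
    conv_rhs => rw [← hshift]
    rw [Finset.mul_sum]
    apply Finset.sum_congr rfl
    intro i _
    change σ ((ζ⁻¹) ^ i * (σ ^ i) (θ : Ω)) =
      ζ * ((ζ⁻¹) ^ (i + 1) * (σ ^ (i + 1)) (θ : Ω))
    rw [map_mul, map_pow, map_inv₀, hσζ, pow_succ' σ, AlgEquiv.mul_apply, ← mul_assoc]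
    congr 1
    rw [pow_succ', ← mul_assoc, mul_inv_cancel₀ hζ0, one_mul]
  have hstk : ∀ (k : ℕ), ∀ y ∈ N, (σ ^ k) y ∈ N := by
    intro k
    induction k with
    | zero => intro y hy; exact hy
    | succ k ih =>
      intro y hy
      rw [pow_succ', AlgEquiv.mul_apply]
      exact hst _ (ih y hy)
  refine ⟨∑ i ∈ Finset.range p, F i, ?_, hθ, hσs⟩
  exact sum_mem fun i _ => mul_mem (pow_mem (inv_mem hζN) _) (hstk i _ θ.2)

theorem pow_eq_of {p : ℕ} (hp : p.Prime) {Ω k : Type} [Field Ω] [CommMonoid k] {ε : Ω}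
    (hε : IsPrimitiveRoot ε p) {η : k} (hη : η ^ p = 1) {t i : ℕ} (h : ε ^ t = ε ^ i) :
    η ^ t = η ^ i := by
  have key : ∀ a b : ℕ, a ≤ b → ε ^ a = ε ^ b → η ^ a = η ^ b := by
    intro a b hab h
    obtain ⟨c, rfl⟩ := Nat.exists_eq_add_of_le hab
    have h0 : ε ^ a ≠ 0 := pow_ne_zero _ (hε.ne_zero hp.ne_zero)
    have h1 : ε ^ c = 1 := by
      rw [pow_add] at h
      exact mul_left_cancel₀ h0 (h.symm.trans (mul_one _).symm)
    obtain ⟨d, rfl⟩ := hε.dvd_of_pow_eq_one c h1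
    rw [pow_add, pow_mul, hη, one_pow, mul_one]
  rcases le_total t i with h1 | h1
  · exact key t i h1 h
  · exact (key i t h1 h.symm).symm

theorem b_ku1 : Pool.Agent.Helper77.PPB.B_KU1 := by
  intro p hp K _ _ M₂ F₀ _ _ ψ₀ hF₀ hψ ε hε εk hεk
  have hp' : p.Prime := hp.out
  have : IsGalois K (AlgebraicClosure K) := inferInstance
  have hG : IsGalois K F₀ := isGalois_of_cutsOut hF₀
  have hεΩ : IsPrimitiveRoot (ε : AlgebraicClosure K) p :=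
    hε.map_of_injective (f := algebraMap M₂ (AlgebraicClosure K))
      (algebraMap M₂ (AlgebraicClosure K)).injective
  by_cases hc : ∀ g : AlgebraicClosure K ≃ₐ[K] AlgebraicClosure K, (∀ x ∈ M₂, g x = x) → ψ₀ g = 1
  · refine ⟨1, 1, one_mem _, by simp, fun g hg i hi => ?_⟩
    rw [map_one, mul_one] at hi
    obtain ⟨j, rfl⟩ := hεΩ.dvd_of_pow_eq_one i hi.symm
    rw [hc g hg, pow_mul, hεk.pow_eq_one, one_pow]
  push Not at hc
  obtain ⟨g₁, hg₁, hne⟩ := hc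
  have hprim : IsPrimitiveRoot (ψ₀ g₁) p := by
    rw [IsPrimitiveRoot.iff_orderOf]
    exact orderOf_eq_prime (hψ g₁ hg₁) hne
  have hprim' : IsPrimitiveRoot ((ψ₀ g₁ : ℂ_[p]ˣ) : ℂ_[p]) p := IsPrimitiveRoot.coe_units_iff.2 hprim
  have hεk' : IsPrimitiveRoot ((εk : ℂ_[p]ˣ) : ℂ_[p]) p := IsPrimitiveRoot.coe_units_iff.2 hεk
  have : NeZero p := ⟨hp'.ne_zero⟩
  obtain ⟨u, -, hu⟩ := hprim'.eq_pow_of_pow_eq_one hεk'.pow_eq_one
  have hu' : ψ₀ g₁ ^ u = εk := Units.ext (by rw [Units.val_pow_eq_pow_val]; exact hu)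
  obtain ⟨g₀, hg₀, hψ₀⟩ : ∃ g₀ : AlgebraicClosure K ≃ₐ[K] AlgebraicClosure K,
      (∀ x ∈ M₂, g₀ x = x) ∧ ψ₀ g₀ = εk := by
    refine ⟨g₁ ^ u, ?_, by rw [map_pow, hu']⟩
    have h1 : g₁ ∈ M₂.fixingSubgroup := (IntermediateField.mem_fixingSubgroup_iff _ _).2 hg₁
    exact (IntermediateField.mem_fixingSubgroup_iff _ _).1 (pow_mem h1 u)
  have hfixk : ∀ (k : ℕ), ∀ x ∈ M₂, (g₀ ^ k) x = x := by
    intro k
    have h1 : g₀ ∈ M₂.fixingSubgroup := (IntermediateField.mem_fixingSubgroup_iff _ _).2 hg₀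
    exact (IntermediateField.mem_fixingSubgroup_iff _ _).1 (pow_mem h1 k)
  have hfix : ∀ g : AlgebraicClosure K ≃ₐ[K] AlgebraicClosure K, (∀ x ∈ M₂, g x = x) →
      ψ₀ g = 1 → ∀ x ∈ M₂ ⊔ F₀, g x = x := fun g h1 h2 =>
    fix_sup g h1 ((hF₀ g).1 h2)
  have hle1 : M₂ ≤ M₂ ⊔ F₀ := le_sup_left
  have hle2 : F₀ ≤ M₂ ⊔ F₀ := le_sup_right
  have htriv : ∀ m : ℕ, (∀ y ∈ M₂ ⊔ F₀, (g₀ ^ m) y = y) ↔ p ∣ m := by
    intro m
    constructor
    · intro h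
      have h1 : ψ₀ (g₀ ^ m) = 1 := (hF₀ _).2 fun x hx => h x (hle2 hx)
      rw [map_pow, hψ₀] at h1
      exact hεk.dvd_of_pow_eq_one m h1
    · rintro ⟨j, rfl⟩
      refine hfix _ (hfixk _) ?_
      rw [map_pow, hψ₀, pow_mul, hεk.pow_eq_one, one_pow]
  have hst : ∀ y ∈ M₂ ⊔ F₀, g₀ y ∈ M₂ ⊔ F₀ := by
    have h1 : M₂ ⊔ F₀ ≤ (M₂ ⊔ F₀).comap (g₀ : AlgebraicClosure K →ₐ[K] AlgebraicClosure K) := by
      refine sup_le (fun y hy => ?_) fun y hy => ?_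
      · show g₀ y ∈ M₂ ⊔ F₀
        rw [hg₀ y hy]
        exact hle1 hy
      · show g₀ y ∈ M₂ ⊔ F₀
        exact hle2 (Pool.Agent.Helper74.PP.stable F₀ hG g₀ hy)
    exact fun y hy => h1 hy
  obtain ⟨s, hsH, hs0, hs⟩ := resolvent hp' (M₂ ⊔ F₀) g₀ htriv hst (ε : AlgebraicClosure K)
    (hle1 ε.2) hεΩ.pow_eq_one (hg₀ _ ε.2)
  have hsk : ∀ k : ℕ, (g₀ ^ k) s = (ε : AlgebraicClosure K) ^ k * s := by
    intro k
    induction k with
    | zero => rw [pow_zero, pow_zero, one_mul]; rfl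
    | succ k ih =>
      rw [pow_succ', AlgEquiv.mul_apply, ih, map_mul, map_pow, hg₀ _ ε.2, hs]
      ring
  have key : ∀ g : AlgebraicClosure K ≃ₐ[K] AlgebraicClosure K, (∀ x ∈ M₂, g x = x) →
      ∃ t : ℕ, ψ₀ g = εk ^ t ∧ g s = (ε : AlgebraicClosure K) ^ t * s := by
    intro g hg
    obtain ⟨t, -, ht⟩ := hεk'.eq_pow_of_pow_eq_one (ξ := ((ψ₀ g : ℂ_[p]ˣ) : ℂ_[p])) (by
      rw [← Units.val_pow_eq_pow_val, hψ g hg, Units.val_one])
    have ht' : ψ₀ g = εk ^ t := Units.ext (by rw [Units.val_pow_eq_pow_val]; exact ht.symm)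
    refine ⟨t, ht', ?_⟩
    have h1 : ∀ x ∈ M₂ ⊔ F₀, ((g₀ ^ t)⁻¹ * g) x = x := by
      apply hfix
      · intro x hx
        rw [AlgEquiv.mul_apply, hg x hx]
        show (g₀ ^ t).symm x = x
        rw [AlgEquiv.symm_apply_eq]
        exact (hfixk t x hx).symm
      · rw [map_mul, map_inv, map_pow, hψ₀, ht', inv_mul_cancel]
    have h2 := h1 s hsH
    rw [AlgEquiv.mul_apply] at h2
    have h3 : (g₀ ^ t).symm (g s) = s := h2
    rw [AlgEquiv.symm_apply_eq, hsk] at h3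
    exact h3
  have hmem : s ^ p ∈ M₂ := by
    have h1 : s ^ p ∈ IntermediateField.fixedField (M₂.fixingSubgroup) := by
      rw [IntermediateField.mem_fixedField_iff]
      intro g hg
      rw [IntermediateField.mem_fixingSubgroup_iff] at hg
      obtain ⟨t, -, ht⟩ := key g hg
      rw [map_pow, ht, mul_pow, ← pow_mul, mul_comm t p, pow_mul, hεΩ.pow_eq_one, one_pow, one_mul]
    rw [InfiniteGalois.fixedField_fixingSubgroup] at h1
    exact h1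
  have hne0 : (⟨s ^ p, hmem⟩ : M₂) ≠ 0 := by
    intro h
    exact pow_ne_zero p hs0 (congrArg (Subtype.val) h)
  refine ⟨Units.mk0 ⟨s ^ p, hmem⟩ hne0, s, hsH, rfl, fun g hg i hi => ?_⟩
  obtain ⟨t, ht1, ht2⟩ := key g hg
  have h1 : (ε : AlgebraicClosure K) ^ t = (ε : AlgebraicClosure K) ^ i :=
    mul_right_cancel₀ hs0 (ht2.symm.trans hi)
  rw [ht1]
  exact pow_eq_of hp' hεΩ hεk.pow_eq_one h1

end Pool.Agent.Helper96.PPB
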